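import Pool.Agent.AMG.Final

/-!
# All but finitely many graphs without isolated vertices, `P2` and `P3` components are antimagic
-/

set_option autoImplicit false

namespace Pool.Agent.Results.MP_6be45b_co.AllButFinitelyMany

/-- There is a number `m0` such that every finite simple graph (connected or not) with at least `m0` edges, no
isolated vertex, no component with exactly one edge and no component that is a path with three vertices is
antimagic: its edges can be labelled by `1, ..., m` (`m` = number of edges), every label used once, such that the
sums of the labels at the vertices are pairwise distinct. -/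
theorem result : ∃ m0 : ℕ, ∀ (V : Type) [Fintype V] [DecidableEq V] (G : SimpleGraph V)
    [DecidableRel G.Adj],
    (∀ v, 0 < G.degree v) →
    (∀ u v, G.Adj u v → ¬ (G.degree u = 1 ∧ G.degree v = 1)) →
    (∀ u v w, G.Adj u v → G.Adj v w → u ≠ w →
        ¬ (G.degree u = 1 ∧ G.degree w = 1 ∧ G.degree v = 2)) →
    m0 ≤ G.edgeFinset.card →
    ∃ f : Sym2 V → ℕ,
      Set.BijOn f (↑G.edgeFinset : Set (Sym2 V)) (Set.Icc 1 G.edgeFinset.card) ∧
      Function.Injective (fun v => ∑ e ∈ G.incidenceFinset v, f e) :=
  Pool.Agent.AMG.final

end Pool.Agent.Results.MP_6be45b_co.AllButFinitelyMany
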